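import Pool.Agent.helper77.BND.SpecB

set_option autoImplicit false

open scoped Topology Matrix
open Filter Finset

namespace Pool.Agent.BND

open Pool.Agent.CZ Pool.Agent.PV

/-- the coefficient of index `n` on the floors -/
noncomputable def BFX_g (l : Lv) (G : ℕ → ℝ → ℕ → ℕ → ℂ) (n : ℤ) (e : ℕ) (s : ℝ) (i : ℕ) : ℂ :=
  if 0 ≤ (i : ℤ) - n ∧ (i : ℤ) - n < l.h e then G e s i ((i : ℤ) - n).toNat else 0

theorem BFX_ends (hBDM : BDM_stmt) (hFLV : FLV_stmt) (l : Lv) (hl : IsLv l) (G : ℕ → ℝ → ℕ → ℕ → ℂ) (hG : IsFm l G)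
    (n : ℤ) (e i : ℕ) (b : Bool) (heN : e < l.N) (hi : i < l.h e) :
    BFX_g l G n e (if b then 1 else 0) i =
      BFX_g l G n (fl l.h (l.W e b) i).1 0 (fl l.h (l.W e b) i).2 := by
  obtain ⟨-, -, -, h4, h5⟩ := hBDM l.h (l.W e b)
  have hsum : ((l.W e b).map l.h).sum = l.h e := hl.ht e heN b
  rw [hsum] at h4 h5
  obtain ⟨hp1, P, Q, -, hp3⟩ := hFLV l.h (l.W e b) i (by rw [hsum]; exact hi)
  have h5' : ∀ q, q < l.h (fl l.h (l.W e b) i).1 → _ := fun q hq => h5 i q hi hq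
  unfold BFX_g
  by_cases hA : 0 ≤ (i : ℤ) - n ∧ (i : ℤ) - n < l.h e
  · obtain ⟨j, hj⟩ := Int.eq_ofNat_of_zero_le hA.1
    have hj2 : j < l.h e := by
      have := hA.2
      rw [hj] at this
      exact_mod_cast this
    have hj3 : ((i : ℤ) - n).toNat = j := by
      rw [hj]
      rfl
    rw [if_pos hA, hj3, hG.ends e i j b heN hi hj2, bd]
    by_cases hf : fp l.h (l.W e b) i = fp l.h (l.W e b) j
    · obtain ⟨h6, h7⟩ := h4 i j hi hj2 hf
      obtain ⟨hq1, -⟩ := hFLV l.h (l.W e b) j (by rw [hsum]; exact hj2)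
      rw [if_pos hf]
      have h8 : ((fl l.h (l.W e b) i).2 : ℤ) - n = ((fl l.h (l.W e b) j).2 : ℤ) := by
        have : (i : ℤ) - n = j := hj
        linarith
      rw [h8, if_pos ⟨Int.natCast_nonneg _, by
        rw [h6]
        exact_mod_cast hq1⟩, Int.toNat_natCast]
    · rw [if_neg hf]
      rw [if_neg]
      rintro ⟨h6, h7⟩
      obtain ⟨q, hq⟩ := Int.eq_ofNat_of_zero_le h6
      have hq2 : q < l.h (fl l.h (l.W e b) i).1 := by
        rw [hq] at h7
        exact_mod_cast h7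
      obtain ⟨-, h8, -⟩ := h5 i q hi hq2
      have h9 : i - (fl l.h (l.W e b) i).2 + q = j := by
        have h10 : (i : ℤ) - n = j := hj
        have h11 : ((fl l.h (l.W e b) i).2 : ℤ) - n = q := hq
        omega
      rw [h9] at h8
      exact hf h8.symm
  · rw [if_neg hA]
    rw [if_neg]
    rintro ⟨h6, h7⟩
    obtain ⟨q, hq⟩ := Int.eq_ofNat_of_zero_le h6
    have hq2 : q < l.h (fl l.h (l.W e b) i).1 := by
      rw [hq] at h7
      exact_mod_cast h7
    obtain ⟨h8, -, -⟩ := h5 i q hi hq2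
    have h11 : ((fl l.h (l.W e b) i).2 : ℤ) - n = q := hq
    refine hA ⟨?_, ?_⟩ <;> omega

theorem BFX (hLFT : LFT_stmt) (hBDM : BDM_stmt) (hFLV : FLV_stmt) (_hEME : EME_stmt) : BFX_stmt := by
  intro B M _ α A _ ι u c hC m G hG
  have hl : IsLv (B.L m) := hC.bs.lv m
  have hF : ∀ n : ℤ, ∃ f : Am → ℂ, ContinuousOn f (FS (B.L m)) ∧ ∀ e s i, e < (B.L m).N → s ∈ U → i < (B.L m).h e →
      f (emb (B.L m) e s i) = BFX_g (B.L m) G n e s i := by
    intro n
    refine hLFT (B.L m) hl ℂ (BFX_g (B.L m) G n) ?_ ?_ ?_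
    · intro e i he hi
      unfold BFX_g
      by_cases hA : 0 ≤ (i : ℤ) - n ∧ (i : ℤ) - n < (B.L m).h e
      · simp only [if_pos hA]
        exact hG.cont e i _ he hi (by omega)
      · simp only [if_neg hA]
        exact continuousOn_const
    · intro e s i he hs hi
      unfold BFX_g
      by_cases hA : 0 ≤ (i : ℤ) - n ∧ (i : ℤ) - n < (B.L m).h e
      · simp only [if_pos hA]
        exact hG.vtx e s i _ he hs hi (by omega)
      · simp only [if_neg hA]
    · intro e i b _ he hi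
      exact BFX_ends hBDM hFLV (B.L m) hl G hG n e i b he hi
  choose F hF1 hF2 using hF
  let f : ℤ → C(↥(XS B), ℂ) := fun n => ⟨fun x => F n (x.1 m),
    (hF1 n).comp_continuous ((continuous_apply m).comp continuous_subtype_val) fun x => (x.2 m).1⟩
  have hf : ∀ n x, f n x = F n (x.1 m) := fun n x => rfl
  have hfv : ∀ (n : ℤ) (x : ↥(XS B)) (e : ℕ) (s : ℝ) (i : ℕ), e < (B.L m).N → s ∈ U → i < (B.L m).h e →
      x.1 m = emb (B.L m) e s i → f n x = BFX_g (B.L m) G n e s i := by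
    intro n x e s i he hs hi hx
    rw [hf, hx, hF2 n e s i he hs hi]
  have hf0 : ∀ (H : ℕ), (∀ e, e < (B.L m).N → (B.L m).h e ≤ H) → ∀ n : ℤ, n ∉ Icc (-(H : ℤ)) H → f n = 0 := by
    intro H hH n hn
    ext x
    obtain ⟨e, s, i, he, hs, hi, hx⟩ := (x.2 m).1
    rw [hfv n x e s i he hs hi hx]
    unfold BFX_g
    rw [if_neg]
    · rfl
    · rintro ⟨h1, h2⟩
      have h3 := hH e he
      apply hn
      rw [mem_Icc]
      constructor <;> omega
  set H₀ : ℕ := ∑ e ∈ range (B.L m).N, (B.L m).h e with hH₀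
  have hH₀' : ∀ e, e < (B.L m).N → (B.L m).h e ≤ H₀ := fun e he =>
    Finset.single_le_sum (f := fun e => (B.L m).h e) (fun _ _ => Nat.zero_le _) (mem_range.2 he)
  set a : A := ∑ n ∈ Icc (-(H₀ : ℤ)) H₀, ι (f n) * up u n with ha
  have hca : ∀ k, c k a = f k := by
    intro k
    rw [ha, map_sum]
    simp only [hC.cov.cval]
    rw [Finset.sum_ite_eq]
    split_ifs with hk
    · rfl
    · exact (hf0 H₀ hH₀' k hk).symm
  refine ⟨a, ⟨?_, ?_, ?_⟩, ?_⟩
  · intro n x y hxy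
    rw [hca, hf, hf, hxy]
  · intro n x e s i he hs hi hx hn
    rw [hca, hfv n x e s i he hs hi hx]
    unfold BFX_g
    rw [if_neg hn]
  · intro H hH
    simp only [hca]
    have h1 : ∀ K : ℕ, (∀ e, e < (B.L m).N → (B.L m).h e ≤ K) →
        ∑ n ∈ Icc (-(K : ℤ)) K, ι (f n) * up u n = ∑ n ∈ Icc (-((max H H₀ : ℕ) : ℤ)) (max H H₀ : ℕ), ι (f n) * up u n ∨
        max H H₀ < K := by
      intro K hK
      rcases le_or_gt K (max H H₀) with h | h
      · left
        refine Finset.sum_subset ?_ ?_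
        · intro n hn
          rw [mem_Icc] at hn ⊢
          constructor <;> omega
        · intro n _ hn
          rw [hf0 K hK n hn, map_zero, zero_mul]
      · exact Or.inr h
    rw [ha]
    have h2 := (h1 H hH).resolve_right (not_lt.2 (le_max_left _ _))
    have h3 := (h1 H₀ hH₀').resolve_right (not_lt.2 (le_max_right _ _))
    rw [h2, h3]
  · intro x e s i he hs hi hx n
    rw [hca, hfv n x e s i he hs hi hx]
    rfl

end Pool.Agent.BND
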